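import Pool.Agent.Run7.h96.IX.UNIF2
import Pool.Agent.Run7.h96.IX.P.NB
import Pool.Agent.Run7.h96.IX.P.UP
import Pool.Agent.Run7.h96.IX.P.ID
import Pool.Agent.Run7.h96.IX.P.PIG
import Pool.Agent.Run7.h96.IX.P.MUL
import Pool.Agent.Run7.h96.IX.P.PT
import Pool.Agent.Run7.h96.IX.P.PAD
import Pool.Agent.Run7.h96.IX.P.DUAL
import Pool.Agent.Run7.h96.IX.P.RD
import Pool.Agent.Run7.h96.IX.P.RC
import Pool.Agent.Run7.h96.IX.P.EX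
import Pool.Agent.Run7.h96.IX.P.UB
import Pool.Agent.Run7.h96.IX.P.MM
import Pool.Agent.Run7.h96.IX.P.NOF
import Pool.Agent.Run7.h96.IX.P.NB2
import Pool.Agent.Run7.h96.IX.P.PIG0
import Pool.Agent.Run7.h96.IX.P.PT0
import Pool.Agent.Run7.h96.IX.P.DUAL0
import Pool.Agent.Run7.h96.IX.P.RD0
import Pool.Agent.Run7.h96.IX.P.RC0
import Pool.Agent.Run7.h96.IX.P.EX0
import Pool.Agent.Run7.h96.IX.P.ONE
import Pool.Agent.Run7.h96.IX.P.PHI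

/-! # Project `IX` (`MP_bc4c60_co`): assembly -/

set_option autoImplicit false

namespace Run7.h96.IX

theorem f_NB : S_NB := Run7.h382.IX.t_NB
theorem f_UB : S_UB := Run7.h183.IX.t_UB f_NB (Run7.h459.IX.t_UP f_NB)
theorem f_MM : S_MM := Run7.h586.IX.t_MM
theorem f_MUL : S_MUL := Run7.h923.IX.t_MUL
theorem f_ID : S_ID := Run7.h181.IX.t_ID
theorem f_PT : S_PT := Run7.h531.IX.t_PT f_NB (Run7.h270.IX.t_PIG f_ID) f_MUL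
theorem f_PAD : S_PAD := Run7.h352.IX.t_PAD f_MUL
theorem f_DUAL : S_DUAL := Run7.h662.IX.t_DUAL
theorem f_NB2 : S_NB2 := Run7.h617.IX.t_NB2

theorem f_LIM2 : S_LIM2 :=
  t_LIM2 f_NB f_UB f_MM f_PT f_DUAL (Run7.h232.IX.t_RD f_PAD) (Run7.h305.IX.t_RC f_PAD)
    (Run7.h646.IX.t_EX f_PAD) f_NB2
    (Run7.h228.IX.PT0.t_PT0 f_NB2 (Run7.h56.IX.t_PIG0 f_ID) f_MUL)
    (Run7.h181.IX.t_DUAL0 f_DUAL) (Run7.h586.IX.t_RD0 f_PAD) (Run7.h590.IX.t_RC0 f_PAD)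
    (Run7.h459.IX.t_EX0 f_PAD) Run7.h742.IX.t_ONE (Run7.h459.IX.t_PHI f_NB f_NB2)

theorem f_UNIF2 : S_UNIF2 := t_UNIF2 f_LIM2

theorem f_NOF : S_NOF := Run7.h220.IX.t_NOF f_MM

end Run7.h96.IX
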