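import Pool.Agent.Run7.h96.IX.Stm

/-! # Piece `LIM` of the project `IX` (`MP_bc4c60_co`) -/

set_option autoImplicit false

open Finset Filter Topology

namespace Run7.h96.IX

theorem logN_ge (hNB : S_NB) {s x l : ℝ} (hs : 0 ≤ s) (hx : 0 < x) (hl : 0 < l) (hl1 : l < 1) :
    0 ≤ Real.logb 2 (N s x) ∧ Real.logb 2 x ≤ Real.logb 2 (N s x) ∧
      l * Real.logb 2 x ≤ Real.logb 2 (N s x) := by
  obtain ⟨h1, h2, _, _⟩ := hNB s x hs hx
  have a1 : 0 ≤ Real.logb 2 (N s x) := Real.logb_nonneg (by norm_num) h1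
  have a2 : Real.logb 2 x ≤ Real.logb 2 (N s x) :=
    Real.logb_le_logb_of_le (by norm_num) hx h2
  refine ⟨a1, a2, ?_⟩
  rcases le_total 0 (Real.logb 2 x) with h | h
  · calc l * Real.logb 2 x ≤ 1 * Real.logb 2 x := mul_le_mul_of_nonneg_right hl1.le h
      _ ≤ _ := by rw [one_mul]; exact a2
  · exact (mul_nonpos_of_nonneg_of_nonpos hl.le h).trans a1

theorem Phi_le (hNB : S_NB) {l γ s x : ℝ} (hl : 0 < l) (hl1 : l < 1) (hγ : 0 < γ) (hs : 0 ≤ s)
    (hs1 : s < 1) (hx : 0 < x) :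
    Phi l γ ≤ (Real.logb 2 (N s x) - l * Real.logb 2 x + γ) / (1 - s) := by
  unfold Phi
  refine csInf_le ⟨0, ?_⟩ ⟨s, x, hs, hs1, hx, rfl⟩
  rintro y ⟨s', x', h1, h2, h3, rfl⟩
  obtain ⟨_, _, h4⟩ := logN_ge hNB h1 h3 hl hl1
  exact div_nonneg (by linarith) (by linarith)

theorem exists_lt_Phi {l γ ε : ℝ} (hε : 0 < ε) : ∃ s x : ℝ, 0 ≤ s ∧ s < 1 ∧ 0 < x ∧
    (Real.logb 2 (N s x) - l * Real.logb 2 x + γ) / (1 - s) < Phi l γ + ε := by
  unfold Phi
  obtain ⟨y, ⟨s, x, h1, h2, h3, rfl⟩, h5⟩ := Real.lt_sInf_add_pos (s := {y | ∃ s x : ℝ, 0 ≤ s ∧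
    s < 1 ∧ 0 < x ∧ y = (Real.logb 2 (N s x) - l * Real.logb 2 x + γ) / (1 - s)})
    ⟨_, 0, 1, le_rfl, by norm_num, by norm_num, rfl⟩ hε
  exact ⟨s, x, h1, h2, h3, h5⟩

theorem Ach_zero : Ach 1 1 1 0 := by
  refine ⟨{∅}, {∅}, by simp, by simp, ?_⟩
  unfold cnt
  exact Finset.card_pos.mpr ⟨(∅, ∅), by simp⟩

theorem Ach_one : Ach 1 1 1 1 := by
  refine ⟨{univ}, {univ}, by simp, by simp, ?_⟩
  unfold cnt
  exact Finset.card_pos.mpr ⟨(univ, univ), by simp⟩

theorem t_LIM (hNB : S_NB) (hUB : S_UB) (hMM : S_MM) (hPT : S_PT) (hDUAL : S_DUAL) (hRD : S_RD)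
    (hRC : S_RC) (hEX : S_EX) : S_LIM := by
  intro l γ hl hl1 hγ lam c hc hlam hcl
  -- eventually `c ≤ 1`, `lam ≤ n`, `1 ≤ n`
  have e1 : ∀ᶠ n : ℕ in atTop, 1 ≤ n := eventually_ge_atTop 1
  have e2 : ∀ᶠ n : ℕ in atTop, c n ≤ 1 := by
    filter_upwards [e1, hcl.eventually (lt_mem_nhds hγ)] with n hn h
    have hn' : (0 : ℝ) < n := by exact_mod_cast hn
    have h2 : 0 < -Real.logb 2 (c n) := by
      by_contra h3
      push Not at h3
      exact absurd h (not_lt.mpr (div_nonpos_of_nonpos_of_nonneg h3 hn'.le))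
    by_contra h4
    push Not at h4
    have := Real.logb_pos (b := 2) (by norm_num) h4
    linarith
  have e3 : ∀ᶠ n : ℕ in atTop, lam n ≤ n := by
    filter_upwards [e1, hlam.eventually (gt_mem_nhds hl1)] with n hn h
    have hn' : (0 : ℝ) < n := by exact_mod_cast hn
    rw [div_lt_one hn'] at h
    exact_mod_cast h.le
  have hM : ∀ᶠ n : ℕ in atTop, ∃ m, 1 ≤ m ∧ Good n (lam n) (c n) m ∧ M n (lam n) (c n) = m ^ 2 := by
    filter_upwards [e2, e3] with n h1 h2
    exact (hMM n (lam n) (c n)).2 h1 h2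
  rw [tendsto_order]
  constructor
  · -- lower bound
    intro a ha
    obtain ⟨v, hav, hv⟩ := exists_between ha
    rcases le_or_gt v 0 with hv0 | hv0
    · filter_upwards [hM, e1] with n h hn
      obtain ⟨m, hm, _, hMm⟩ := h
      have hn' : (0 : ℝ) < n := by exact_mod_cast hn
      have : 0 ≤ Real.logb 2 (M n (lam n) (c n)) := by
        apply Real.logb_nonneg (by norm_num)
        rw [hMm]
        have : 1 ≤ m ^ 2 := Nat.one_le_pow _ _ hm
        exact_mod_cast this
      have h2 : 0 ≤ Real.logb 2 (M n (lam n) (c n)) / n := div_nonneg this hn'.le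
      linarith
    · have hv2 : v < 2 := lt_of_lt_of_le hv (min_le_left _ _)
      have hvF : v < Phi l γ := lt_of_lt_of_le hv (min_le_right _ _)
      obtain ⟨η, hη, hpt⟩ := hDUAL D0 (fun s r => Real.logb 2 (N s ((2 : ℝ) ^ r))) l γ v (Phi l γ)
        ⟨1, 1, 1, 0, le_rfl, le_rfl, le_rfl, Ach_zero, by simp⟩
        ⟨1, 1, 1, 1, le_rfl, le_rfl, le_rfl, Ach_one, by simp⟩
        (by
          intro s r ε hs hε
          obtain ⟨p, hp, h⟩ := hPT s ((2 : ℝ) ^ r) ε hs (by positivity) hε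
          refine ⟨p, hp, ?_⟩
          rw [Real.logb_rpow (by norm_num) (by norm_num)] at h
          linarith)
        (by
          intro s r hs
          obtain ⟨h1, h2, _⟩ := logN_ge (x := (2 : ℝ) ^ r) hNB hs (by positivity) hl hl1
          rw [Real.logb_rpow (by norm_num) (by norm_num)] at h2
          exact ⟨h1, h2⟩)
        hl hl1 hγ hv0 hv2.le hvF
        (by
          intro s r hs hs1
          have h := Phi_le (x := (2 : ℝ) ^ r) hNB hl hl1 hγ hs hs1 (by positivity)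
          rw [le_div_iff₀ (by linarith), Real.logb_rpow (by norm_num) (by norm_num)] at h
          linarith)
      have hsub : convexHull ℝ D0 ⊆ Rl := convexHull_min hRD hRC
      have := hEX l γ v η hl hl1 hγ hv0 hv2 hη (fun η' hη' => by
        obtain ⟨p, hp, h⟩ := hpt η' hη'
        exact ⟨p, hsub hp, h⟩) lam c hc hlam hcl
      filter_upwards [this, e1] with n h hn
      obtain ⟨m, hg, hm⟩ := h
      have hn' : (0 : ℝ) < n := by exact_mod_cast hn
      have h1 := ((hMM n (lam n) (c n)).1 m hg).2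
      have h2 : (2 : ℝ) ^ (v * n) ≤ (M n (lam n) (c n) : ℝ) := by
        refine hm.trans ?_
        exact_mod_cast h1
      have h3 : v * n ≤ Real.logb 2 (M n (lam n) (c n)) := by
        rw [Real.le_logb_iff_rpow_le (by norm_num) (lt_of_lt_of_le (by positivity) h2)]
        exact h2
      rw [lt_div_iff₀ hn']
      nlinarith
  · -- upper bound
    intro a ha
    rcases le_or_gt (Phi l γ) 2 with hF | hF
    · rw [min_eq_right hF] at ha
      obtain ⟨s, x, hs, hs1, hx, h⟩ := exists_lt_Phi (l := l) (γ := γ) (sub_pos.mpr ha)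
      have h' : (Real.logb 2 (N s x) - l * Real.logb 2 x + γ) / (1 - s) < a := by linarith
      have ht : Tendsto (fun n : ℕ => (Real.logb 2 (N s x) - ((lam n : ℝ) / n) * Real.logb 2 x +
          (-Real.logb 2 (c n) / n)) / (1 - s)) atTop
          (𝓝 ((Real.logb 2 (N s x) - l * Real.logb 2 x + γ) / (1 - s))) :=
        (((tendsto_const_nhds.sub (hlam.mul_const _)).add hcl).div_const _)
      filter_upwards [hM, e1, ht.eventually (gt_mem_nhds h')] with n h1 hn h2
      obtain ⟨m, hm, hg, hMm⟩ := h1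
      have hn' : (0 : ℝ) < n := by exact_mod_cast hn
      have h3 := hUB n (lam n) m (c n) s x (hc n) hm hs hs1 hx hg
      rw [hMm]
      push_cast
      rw [Real.logb_pow, div_lt_iff₀ hn']
      refine lt_of_le_of_lt h3 ?_
      have h4 : (n * Real.logb 2 (N s x) - lam n * Real.logb 2 x - Real.logb 2 (c n)) / (1 - s) =
          ((Real.logb 2 (N s x) - ((lam n : ℝ) / n) * Real.logb 2 x +
          (-Real.logb 2 (c n) / n)) / (1 - s)) * n := by
        field_simp
        ring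
      rw [h4]
      exact mul_lt_mul_of_pos_right h2 hn'
    · rw [min_eq_left hF.le] at ha
      filter_upwards [hM, e1] with n h1 hn
      obtain ⟨m, hm, hg, hMm⟩ := h1
      have hn' : (0 : ℝ) < n := by exact_mod_cast hn
      have h2 := ((hMM n (lam n) (c n)).1 m hg).1
      rw [hMm]
      push_cast
      rw [Real.logb_pow, div_lt_iff₀ hn']
      have h3 : Real.logb 2 m ≤ n := by
        rw [Real.logb_le_iff_le_rpow (by norm_num) (by exact_mod_cast hm)]
        rw [Real.rpow_natCast]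
        exact_mod_cast h2
      push_cast
      nlinarith

end Run7.h96.IX
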