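import Pool.Agent.Run7.h96.IX.Stm2
import Pool.Agent.Run7.h96.IX.LIM

/-! # Project `IX` (`MP_bc4c60_co`): the limit for all `l` in `[0, 1]` -/

set_option autoImplicit false

open Finset Filter Topology

namespace Run7.h96.IX

/-- the limit for all `l` in `[0, 1]` -/
def S_LIM2 : Prop := ∀ (l γ : ℝ), 0 ≤ l → l ≤ 1 → 0 < γ → ∀ (lam : ℕ → ℕ) (c : ℕ → ℝ),
  (∀ n, 0 < c n) → (∀ n, lam n ≤ n) → Tendsto (fun n : ℕ => (lam n : ℝ) / n) atTop (𝓝 l) →
  Tendsto (fun n : ℕ => -Real.logb 2 (c n) / n) atTop (𝓝 γ) →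
  Tendsto (fun n : ℕ => Real.logb 2 (M n (lam n) (c n)) / n) atTop (𝓝 (min 2 (Phi l γ)))

theorem lim_of_lower (hUB : S_UB) (hMM : S_MM) (l γ : ℝ) (hγ : 0 < γ)
    (lam : ℕ → ℕ) (c : ℕ → ℝ) (hc : ∀ n, 0 < c n) (hle : ∀ n, lam n ≤ n)
    (hlam : Tendsto (fun n : ℕ => (lam n : ℝ) / n) atTop (𝓝 l))
    (hcl : Tendsto (fun n : ℕ => -Real.logb 2 (c n) / n) atTop (𝓝 γ))
    (hlow : ∀ v : ℝ, 0 < v → v < 2 → v < Phi l γ →
      ∀ᶠ n : ℕ in atTop, ∃ m : ℕ, Good n (lam n) (c n) m ∧ (2 : ℝ) ^ (v * n) ≤ (m : ℝ) ^ 2) :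
    Tendsto (fun n : ℕ => Real.logb 2 (M n (lam n) (c n)) / n) atTop (𝓝 (min 2 (Phi l γ))) := by
  have e1 : ∀ᶠ n : ℕ in atTop, 1 ≤ n := eventually_ge_atTop 1
  have e2 : ∀ᶠ n : ℕ in atTop, c n ≤ 1 := by
    filter_upwards [e1, hcl.eventually (lt_mem_nhds hγ)] with n hn h
    have hn' : (0 : ℝ) < n := by exact_mod_cast hn
    have h2 : 0 < -Real.logb 2 (c n) := by
      by_contra h3
      push Not at h3
      exact absurd h (not_lt.mpr (div_nonpos_of_nonpos_of_nonneg h3 hn'.le))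
    by_contra h4
    push Not at h4
    have := Real.logb_pos (b := 2) (by norm_num) h4
    linarith
  have hM : ∀ᶠ n : ℕ in atTop, ∃ m, 1 ≤ m ∧ Good n (lam n) (c n) m ∧ M n (lam n) (c n) = m ^ 2 := by
    filter_upwards [e2] with n h1
    exact (hMM n (lam n) (c n)).2 h1 (hle n)
  rw [tendsto_order]
  constructor
  · intro a ha
    obtain ⟨v, hav, hv⟩ := exists_between ha
    rcases le_or_gt v 0 with hv0 | hv0
    · filter_upwards [hM, e1] with n h hn
      obtain ⟨m, hm, _, hMm⟩ := h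
      have hn' : (0 : ℝ) < n := by exact_mod_cast hn
      have : 0 ≤ Real.logb 2 (M n (lam n) (c n)) := by
        apply Real.logb_nonneg (by norm_num)
        rw [hMm]
        have : 1 ≤ m ^ 2 := Nat.one_le_pow _ _ hm
        exact_mod_cast this
      have h2 : 0 ≤ Real.logb 2 (M n (lam n) (c n)) / n := div_nonneg this hn'.le
      linarith
    · have hv2 : v < 2 := lt_of_lt_of_le hv (min_le_left _ _)
      have hvF : v < Phi l γ := lt_of_lt_of_le hv (min_le_right _ _)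
      filter_upwards [hlow v hv0 hv2 hvF, e1] with n h hn
      obtain ⟨m, hg, hm⟩ := h
      have hn' : (0 : ℝ) < n := by exact_mod_cast hn
      have h1 := ((hMM n (lam n) (c n)).1 m hg).2
      have h2 : (2 : ℝ) ^ (v * n) ≤ (M n (lam n) (c n) : ℝ) := by
        refine hm.trans ?_
        exact_mod_cast h1
      have h3 : v * n ≤ Real.logb 2 (M n (lam n) (c n)) := by
        rw [Real.le_logb_iff_rpow_le (by norm_num) (lt_of_lt_of_le (by positivity) h2)]
        exact h2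
      rw [lt_div_iff₀ hn']
      nlinarith
  · intro a ha
    rcases le_or_gt (Phi l γ) 2 with hF | hF
    · rw [min_eq_right hF] at ha
      obtain ⟨s, x, hs, hs1, hx, h⟩ := exists_lt_Phi (l := l) (γ := γ) (sub_pos.mpr ha)
      have h' : (Real.logb 2 (N s x) - l * Real.logb 2 x + γ) / (1 - s) < a := by linarith
      have ht : Tendsto (fun n : ℕ => (Real.logb 2 (N s x) - ((lam n : ℝ) / n) * Real.logb 2 x +
          (-Real.logb 2 (c n) / n)) / (1 - s)) atTop
          (𝓝 ((Real.logb 2 (N s x) - l * Real.logb 2 x + γ) / (1 - s))) :=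
        (((tendsto_const_nhds.sub (hlam.mul_const _)).add hcl).div_const _)
      filter_upwards [hM, e1, ht.eventually (gt_mem_nhds h')] with n h1 hn h2
      obtain ⟨m, hm, hg, hMm⟩ := h1
      have hn' : (0 : ℝ) < n := by exact_mod_cast hn
      have h3 := hUB n (lam n) m (c n) s x (hc n) hm hs hs1 hx hg
      rw [hMm]
      push_cast
      rw [Real.logb_pow, div_lt_iff₀ hn']
      refine lt_of_le_of_lt h3 ?_
      have h4 : (n * Real.logb 2 (N s x) - lam n * Real.logb 2 x - Real.logb 2 (c n)) / (1 - s) =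
          ((Real.logb 2 (N s x) - ((lam n : ℝ) / n) * Real.logb 2 x +
          (-Real.logb 2 (c n) / n)) / (1 - s)) * n := by
        field_simp
        ring
      rw [h4]
      exact mul_lt_mul_of_pos_right h2 hn'
    · rw [min_eq_left hF.le] at ha
      filter_upwards [hM, e1] with n h1 hn
      obtain ⟨m, hm, hg, hMm⟩ := h1
      have hn' : (0 : ℝ) < n := by exact_mod_cast hn
      have h2 := ((hMM n (lam n) (c n)).1 m hg).1
      rw [hMm]
      push_cast
      rw [Real.logb_pow, div_lt_iff₀ hn']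
      have h3 : Real.logb 2 m ≤ n := by
        rw [Real.logb_le_iff_le_rpow (by norm_num) (by exact_mod_cast hm)]
        rw [Real.rpow_natCast]
        exact_mod_cast h2
      push_cast
      nlinarith

theorem t_LIM2 (hNB : S_NB) (hUB : S_UB) (hMM : S_MM) (hPT : S_PT) (hDUAL : S_DUAL) (hRD : S_RD)
    (hRC : S_RC) (hEX : S_EX) (hNB2 : S_NB2) (hPT0 : S_PT0) (hDUAL0 : S_DUAL0) (hRD0 : S_RD0)
    (hRC0 : S_RC0) (hEX0 : S_EX0) (hONE : S_ONE) (hPHI : S_PHI) : S_LIM2 := by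
  intro l γ hl hl1 hγ lam c hc hle hlam hcl
  rcases hl.eq_or_lt with rfl | hl0
  · refine lim_of_lower hUB hMM 0 γ hγ lam c hc hle hlam hcl fun v hv0 hv2 hvF => ?_
    obtain ⟨η, hη, p, hp, h⟩ := hDUAL0 D00 (fun s => Real.logb 2 (N s 0)) γ v (Phi 0 γ)
      ⟨1, 1, 1, le_rfl, le_rfl, le_rfl, Ach_zero, by simp⟩ hPT0
      (fun s hs => Real.logb_nonneg (by norm_num) (hNB2 s hs).1) hγ hv0 hv2.le hvF (hPHI γ hγ).2
    exact hEX0 γ v η hγ hv0 hv2 hη ⟨p, convexHull_min hRD0 hRC0 hp, h⟩ lam c hc hlam hcl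
  · rcases hl1.eq_or_lt with rfl | hl1
    · refine lim_of_lower hUB hMM 1 γ hγ lam c hc hle hlam hcl fun v hv0 hv2 hvF => ?_
      exact hONE γ v hv0 hv2 (lt_of_lt_of_le hvF (hPHI γ hγ).1) lam c hc hle hcl
    · exact t_LIM hNB hUB hMM hPT hDUAL hRD hRC hEX l γ hl0 hl1 hγ lam c hc hlam hcl

end Run7.h96.IX
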