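import Pool.Agent.Run7.h96.IX.Stm3
import Pool.Agent.Run7.h96.IX.LIM2

/-! # Project `IX` (`MP_bc4c60_co`): super-polynomially small `c` -/

set_option autoImplicit false

open Finset Filter Topology

namespace Run7.h96.IX

/-- the limit for `γ = 0` -/
def S_LIM3 : Prop := ∀ (l : ℝ), 0 < l → l < 1 → ∀ (lam : ℕ → ℕ) (c : ℕ → ℝ),
  (∀ n, 0 < c n) → (∀ n, lam n ≤ n) → Tendsto (fun n : ℕ => (lam n : ℝ) / n) atTop (𝓝 l) →
  Tendsto (fun n : ℕ => -Real.logb 2 (c n) / n) atTop (𝓝 0) →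
  Tendsto (fun n : ℕ => -Real.logb 2 (c n) / Real.logb 2 n) atTop atTop →
  Tendsto (fun n : ℕ => Real.logb 2 (M n (lam n) (c n)) / n) atTop (𝓝 (min 2 (Phi l 0)))

theorem NI_zero (n K : ℕ) : NI n K 0 0 0 := by
  refine ⟨Nat.zero_le _, Nat.zero_le _, Nat.zero_le _, ?_⟩
  have h : cnt 0 (powersetCard 0 (univ : Finset (Fin n))) (powersetCard 0 univ) = 1 := by
    unfold cnt
    rw [Finset.powersetCard_zero, Finset.singleton_product_singleton, Finset.filter_singleton,
      if_pos (by simp), Finset.card_singleton]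
  rw [h]
  simp only [Nat.choose_zero_right, mul_one]
  exact Nat.one_le_pow _ _ (Nat.succ_pos _)

theorem NI_top (n K : ℕ) : NI n K n n n := by
  refine ⟨le_rfl, le_rfl, le_rfl, ?_⟩
  have h0 : powersetCard n (univ : Finset (Fin n)) = {univ} := by
    have := Finset.powersetCard_self (univ : Finset (Fin n))
    rwa [Finset.card_univ, Fintype.card_fin] at this
  have h : cnt n (powersetCard n (univ : Finset (Fin n))) (powersetCard n univ) = 1 := by
    unfold cnt
    rw [h0, Finset.singleton_product_singleton, Finset.filter_singleton,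
      if_pos (by simp), Finset.card_singleton]
  rw [h]
  simp only [Nat.choose_self, mul_one]
  exact Nat.one_le_pow _ _ (Nat.succ_pos _)

theorem E1_bound (n K : ℕ) (hn : 1 ≤ n) : ∀ e ∈ E1 n K, 0 ≤ e.1 ∧ e.1 ≤ 2 ∧ 0 ≤ e.2 ∧ e.2 ≤ 1 := by
  rintro e ⟨i, j, lam, ⟨hi, hj, hl, _⟩, rfl⟩
  have hn' : (0 : ℝ) < n := by exact_mod_cast hn
  have c1 : (1 : ℝ) ≤ n.choose i := by exact_mod_cast Nat.choose_pos hi
  have c2 : (1 : ℝ) ≤ n.choose j := by exact_mod_cast Nat.choose_pos hj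
  have d1 : (n.choose i : ℝ) ≤ 2 ^ n := by
    have := Nat.choose_le_two_pow n i
    exact_mod_cast this
  have d2 : (n.choose j : ℝ) ≤ 2 ^ n := by
    have := Nat.choose_le_two_pow n j
    exact_mod_cast this
  have h1 : (1 : ℝ) ≤ (n.choose i : ℝ) * n.choose j := by nlinarith
  refine ⟨div_nonneg (Real.logb_nonneg (by norm_num) h1) hn'.le, ?_, by positivity, ?_⟩
  · rw [div_le_iff₀ hn', Real.logb_le_iff_le_rpow (by norm_num) (by linarith)]
    calc (n.choose i : ℝ) * n.choose j ≤ 2 ^ n * 2 ^ n := by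
          apply mul_le_mul d1 d2 (by positivity) (by positivity)
      _ = (2 : ℝ) ^ (2 * n : ℝ) := by
          rw [← pow_add, ← Real.rpow_natCast]
          congr 1
          push_cast
          ring
  · simp only
    rw [div_le_one hn']
    exact_mod_cast hl

theorem hyp5 (hT1 : S_T1) (hT2 : S_T2) (hT3 : S_T3) (hT4 : S_T4) (l v' : ℝ) (hl : 0 < l)
    (hl1 : l < 1) (hv : 0 < v') (hvP : v' < Phi l 0) (δ : ℝ) (hδ : 0 < δ) :
    ∃ T K : ℕ, 1 ≤ T ∧ ∃ n0 : ℕ, ∀ n ≥ n0, ∃ P Kk lam : ℕ, 1 ≤ P ∧ 1 ≤ Kk ∧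
    Ach (T * (2 * n)) P Kk lam ∧ Kk ^ 2 ≤ P * (n + 1) ^ K ∧
    v' * (T * (2 * n) : ℕ) ≤ 2 * Real.logb 2 Kk ∧
    |(lam : ℝ) - l * (T * (2 * n) : ℕ)| ≤ δ * (T * (2 * n) : ℕ) := by
  obtain ⟨w, hw1, hw2⟩ := exists_between hvP
  have hw0 : 0 < w := by linarith
  obtain ⟨T, hT⟩ := exists_nat_gt (6 / min (w - v') (δ / 2))
  have hmin : 0 < min (w - v') (δ / 2) := lt_min (by linarith) (by linarith)
  have hTpos : (0 : ℝ) < T := lt_trans (by positivity) hT
  have h6 : 6 / (T : ℝ) ≤ min (w - v') (δ / 2) := by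
    rw [div_lt_iff₀ hmin] at hT
    rw [div_le_iff₀ hTpos]
    linarith
  have h6a : 6 / (T : ℝ) ≤ w - v' := h6.trans (min_le_left _ _)
  have h6b : 6 / (T : ℝ) ≤ δ / 2 := h6.trans (min_le_right _ _)
  have hl1' : 0 < 1 - l := by linarith
  obtain ⟨K, n0, h1⟩ := hT1 l (max (w / l) (w / (1 - l))) ((Phi l 0 - w) / 2) hl hl1
    (lt_of_lt_of_le (by positivity) (le_max_left _ _)) (by linarith)
  have hT1' : 1 ≤ T := by exact_mod_cast (Nat.cast_pos.mp hTpos)
  refine ⟨T, 2 * K * T, hT1', n0 + 1, fun n hn => ?_⟩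
  have hn1 : 1 ≤ n := by omega
  have hn' : (0 : ℝ) < n := by exact_mod_cast hn1
  have hz : ((0 : ℝ), (0 : ℝ)) ∈ E1 n K := ⟨0, 0, 0, NI_zero n K, by simp⟩
  have ho : ((0 : ℝ), (1 : ℝ)) ∈ E1 n K := ⟨n, n, n, NI_top n K, by simp [hn'.ne']⟩
  obtain ⟨p, hp, hp1, hp2⟩ := hT2 (E1 n K) l w _ hz ho hl hl1 hw0 (le_max_left _ _)
    (le_max_right _ _) (fun θ hθ => by
      obtain ⟨p, hp, h⟩ := h1 n (by omega) θ hθ
      exact ⟨p, hp, by linarith⟩) (δ / 2) (by linarith)
  obtain ⟨e, he, he1, he2⟩ := hT3 (E1 n K) hz (E1_bound n K hn1) p hp T hT1'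
  choose i j lam hNI hval using he
  obtain ⟨P, hAch, hP⟩ := hT4 n K T i j lam hNI
  have hcc : ∀ t, 1 ≤ n.choose (i t) * n.choose (j t) := fun t =>
    Nat.one_le_iff_ne_zero.mpr (Nat.mul_ne_zero (Nat.choose_pos (hNI t).1).ne'
      (Nat.choose_pos (hNI t).2.1).ne')
  have hKk : 1 ≤ ∏ t, n.choose (i t) * n.choose (j t) :=
    Nat.one_le_iff_ne_zero.mpr (Finset.prod_ne_zero_iff.mpr fun t _ =>
      Nat.one_le_iff_ne_zero.mp (hcc t))
  have hP1 : 1 ≤ P := by
    rcases Nat.eq_zero_or_pos P with h | h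
    · rw [h, zero_mul] at hP
      have : 1 ≤ (∏ t, n.choose (i t) * n.choose (j t)) ^ 2 := Nat.one_le_pow _ _ hKk
      omega
    · exact h
  have s1 : Real.logb 2 ((∏ t, n.choose (i t) * n.choose (j t) : ℕ) : ℝ) = n * ∑ t, (e t).1 := by
    push_cast
    rw [Real.logb_prod _ _ (fun t _ => by
      have := hcc t
      have h2 : (1 : ℝ) ≤ ((n.choose (i t) * n.choose (j t) : ℕ) : ℝ) := by exact_mod_cast this
      push_cast at h2
      linarith), Finset.mul_sum]
    refine Finset.sum_congr rfl fun t _ => ?_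
    rw [hval t]
    field_simp
  have s2 : ((∑ t, 2 * lam t : ℕ) : ℝ) = 2 * (n * ∑ t, (e t).2) := by
    push_cast
    rw [Finset.mul_sum, Finset.mul_sum]
    refine Finset.sum_congr rfl fun t _ => ?_
    rw [hval t]
    field_simp
  have a1 := (abs_le.mp he1).1
  have a2 := abs_le.mp he2
  have a3 := abs_lt.mp hp2
  have b1 : v' * T ≤ ∑ t, (e t).1 := by
    have : v' ≤ (∑ t, (e t).1) / T := by linarith
    rwa [le_div_iff₀ hTpos] at this
  have b2 : (∑ t, (e t).2) ≤ (l + δ) * T := by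
    have : (∑ t, (e t).2) / T ≤ l + δ := by linarith [a2.2]
    rwa [div_le_iff₀ hTpos] at this
  have b3 : (l - δ) * T ≤ (∑ t, (e t).2) := by
    have : l - δ ≤ (∑ t, (e t).2) / T := by linarith [a2.1]
    rwa [le_div_iff₀ hTpos] at this
  refine ⟨P, _, _, hP1, hKk, hAch, hP, ?_, ?_⟩
  · rw [s1]
    push_cast
    nlinarith
  · rw [s2]
    push_cast
    rw [abs_le]
    constructor
    · nlinarith
    · nlinarith

theorem t_LIM3 (hUB : S_UB) (hMM : S_MM) (hT1 : S_T1) (hT2 : S_T2) (hT3 : S_T3) (hT4 : S_T4)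
    (hT5 : S_T5) : S_LIM3 := by
  intro l hl hl1 lam c hc hle hlam hcl hcs
  have e1 : ∀ᶠ n : ℕ in atTop, 1 ≤ n := eventually_ge_atTop 1
  have e2 : ∀ᶠ n : ℕ in atTop, c n ≤ 1 := by
    filter_upwards [eventually_ge_atTop 2, hcs.eventually_gt_atTop 0] with n hn h
    have hn' : (1 : ℝ) < n := by exact_mod_cast hn
    have h1 : 0 < Real.logb 2 n := Real.logb_pos (by norm_num) hn'
    have h2 : 0 < -Real.logb 2 (c n) := by
      by_contra h3
      push Not at h3
      exact absurd h (not_lt.mpr (div_nonpos_of_nonpos_of_nonneg h3 h1.le))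
    by_contra h4
    push Not at h4
    have := Real.logb_pos (b := 2) (by norm_num) h4
    linarith
  have hM : ∀ᶠ n : ℕ in atTop, ∃ m, 1 ≤ m ∧ Good n (lam n) (c n) m ∧ M n (lam n) (c n) = m ^ 2 := by
    filter_upwards [e2] with n h1
    exact (hMM n (lam n) (c n)).2 h1 (hle n)
  rw [tendsto_order]
  constructor
  · intro a ha
    obtain ⟨v, hav, hv⟩ := exists_between ha
    rcases le_or_gt v 0 with hv0 | hv0
    · filter_upwards [hM, e1] with n h hn
      obtain ⟨m, hm, _, hMm⟩ := h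
      have hn' : (0 : ℝ) < n := by exact_mod_cast hn
      have : 0 ≤ Real.logb 2 (M n (lam n) (c n)) := by
        apply Real.logb_nonneg (by norm_num)
        rw [hMm]
        have : 1 ≤ m ^ 2 := Nat.one_le_pow _ _ hm
        exact_mod_cast this
      have h2 : 0 ≤ Real.logb 2 (M n (lam n) (c n)) / n := div_nonneg this hn'.le
      linarith
    · have hvF : v < Phi l 0 := lt_of_lt_of_le hv (min_le_right _ _)
      obtain ⟨v', hv1, hv2⟩ := exists_between hvF
      have := hT5 l v v' hl hl1 hv0 hv1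
        (fun δ hδ => hyp5 hT1 hT2 hT3 hT4 l v' hl hl1 (by linarith) hv2 δ hδ) lam c hc hlam hcs
      filter_upwards [this, e1] with n h hn
      obtain ⟨m, hg, hm⟩ := h
      have hn' : (0 : ℝ) < n := by exact_mod_cast hn
      have h1 := ((hMM n (lam n) (c n)).1 m hg).2
      have h2 : (2 : ℝ) ^ (v * n) ≤ (M n (lam n) (c n) : ℝ) := by
        refine hm.trans ?_
        exact_mod_cast h1
      have h3 : v * n ≤ Real.logb 2 (M n (lam n) (c n)) := by
        rw [Real.le_logb_iff_rpow_le (by norm_num) (lt_of_lt_of_le (by positivity) h2)]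
        exact h2
      rw [lt_div_iff₀ hn']
      nlinarith
  · intro a ha
    rcases le_or_gt (Phi l 0) 2 with hF | hF
    · rw [min_eq_right hF] at ha
      obtain ⟨s, x, hs, hs1, hx, h⟩ := exists_lt_Phi (l := l) (γ := 0) (sub_pos.mpr ha)
      have h' : (Real.logb 2 (N s x) - l * Real.logb 2 x + 0) / (1 - s) < a := by linarith
      have ht : Tendsto (fun n : ℕ => (Real.logb 2 (N s x) - ((lam n : ℝ) / n) * Real.logb 2 x +
          (-Real.logb 2 (c n) / n)) / (1 - s)) atTop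
          (𝓝 ((Real.logb 2 (N s x) - l * Real.logb 2 x + 0) / (1 - s))) :=
        (((tendsto_const_nhds.sub (hlam.mul_const _)).add hcl).div_const _)
      filter_upwards [hM, e1, ht.eventually (gt_mem_nhds h')] with n h1 hn h2
      obtain ⟨m, hm, hg, hMm⟩ := h1
      have hn' : (0 : ℝ) < n := by exact_mod_cast hn
      have h3 := hUB n (lam n) m (c n) s x (hc n) hm hs hs1 hx hg
      rw [hMm]
      push_cast
      rw [Real.logb_pow, div_lt_iff₀ hn']
      refine lt_of_le_of_lt h3 ?_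
      have h4 : (n * Real.logb 2 (N s x) - lam n * Real.logb 2 x - Real.logb 2 (c n)) / (1 - s) =
          ((Real.logb 2 (N s x) - ((lam n : ℝ) / n) * Real.logb 2 x +
          (-Real.logb 2 (c n) / n)) / (1 - s)) * n := by
        field_simp
        ring
      rw [h4]
      exact mul_lt_mul_of_pos_right h2 hn'
    · rw [min_eq_left hF.le] at ha
      filter_upwards [hM, e1] with n h1 hn
      obtain ⟨m, hm, hg, hMm⟩ := h1
      have hn' : (0 : ℝ) < n := by exact_mod_cast hn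
      have h2 := ((hMM n (lam n) (c n)).1 m hg).1
      rw [hMm]
      push_cast
      rw [Real.logb_pow, div_lt_iff₀ hn']
      have h3 : Real.logb 2 m ≤ n := by
        rw [Real.logb_le_iff_le_rpow (by norm_num) (by exact_mod_cast hm)]
        rw [Real.rpow_natCast]
        exact_mod_cast h2
      push_cast
      nlinarith

end Run7.h96.IX
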