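import Pool.Agent.Run7.h96.IX.Fin
import Pool.Agent.Run7.h96.IX.LIM3
import Pool.Agent.Run7.h96.IX.P.T1
import Pool.Agent.Run7.h96.IX.P.T2
import Pool.Agent.Run7.h96.IX.P.T3
import Pool.Agent.Run7.h96.IX.P.T4
import Pool.Agent.Run7.h96.IX.P.T5

/-! # Project `IX` (`MP_bc4c60_co`): assembly, super-polynomially small `c` -/

set_option autoImplicit false

namespace Run7.h96.IX

theorem f_LIM3 : S_LIM3 :=
  t_LIM3 f_UB f_MM (Run7.h96.IX.T1.t_T1 f_NB (Run7.h270.IX.t_PIG f_ID)) Run7.h96.IX.T2.t_T2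
    Run7.h617.IX.t_T3 (Run7.h617.IX.t_T4 f_MUL) (Run7.h382.IX.t_T5 f_PAD)

end Run7.h96.IX
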