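import Mathlib

/-!
# Project IX (helper96): MP_bc4c60_co, families with many pairs of prescribed intersection size

For exponentially small `c = 2^(-γ n)` and `λ = l n` the exponent of `M(n, λ, c)` is
`min 2 (Phi l γ)`, a single-letter formula.  Pieces: closed Props, proofs in the doc strings.
-/

set_option autoImplicit false

open Finset Filter Topology

namespace Run7.h96.IX

noncomputable section

/-- number of pairs `(A, B)` in the product of two families with `|A ∩ B| = lam` -/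
def cnt {n : ℕ} (lam : ℕ) (A B : Finset (Finset (Fin n))) : ℕ :=
  ((A ×ˢ B).filter fun p => (p.1 ∩ p.2).card = lam).card

/-- there are two families of `m` sets with at least `c m²` pairs with `|A ∩ B| = lam` -/
def Good (n lam : ℕ) (c : ℝ) (m : ℕ) : Prop :=
  ∃ A B : Finset (Finset (Fin n)), A.card = m ∧ B.card = m ∧ c * (m : ℝ) ^ 2 ≤ (cnt lam A B : ℝ)

/-- `M(n, λ, c)` -/
def M (n lam : ℕ) (c : ℝ) : ℕ := sSup {q | ∃ m, Good n lam c m ∧ q = m ^ 2}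

/-- the two-point function -/
def g (s x a b : ℝ) : ℝ :=
  (1 - a) ^ s * (1 - b) ^ s + (1 - a) ^ s * b ^ s + a ^ s * (1 - b) ^ s + x * (a ^ s * b ^ s)

/-- its maximum over `[0,1]²` -/
def N (s x : ℝ) : ℝ :=
  sSup {y | ∃ a b : ℝ, 0 ≤ a ∧ a ≤ 1 ∧ 0 ≤ b ∧ b ≤ 1 ∧ y = g s x a b}

/-- the exponent -/
def Phi (l γ : ℝ) : ℝ :=
  sInf {y | ∃ s x : ℝ, 0 ≤ s ∧ s < 1 ∧ 0 < x ∧
    y = (Real.logb 2 (N s x) - l * Real.logb 2 x + γ) / (1 - s)}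

/-- two families of `K` sets in `Fin n` with at least `P` pairs with `|A ∩ B| = lam`. -/
def Ach (n P K lam : ℕ) : Prop :=
  ∃ A B : Finset (Finset (Fin n)), A.card = K ∧ B.card = K ∧ P ≤ cnt lam A B

/-- normalised achievable points `(log P / n, 2 log K / n, lam / n)` -/
def D0 : Set (ℝ × ℝ × ℝ) := {p | ∃ n P K lam : ℕ, 1 ≤ n ∧ 1 ≤ P ∧ 1 ≤ K ∧ Ach n P K lam ∧
  p = (Real.logb 2 P / n, 2 * Real.logb 2 K / n, (lam : ℝ) / n)}

/-- asymptotically realisable points -/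
def Rl : Set (ℝ × ℝ × ℝ) := {p | ∀ ε : ℝ, 0 < ε → ∃ n0 : ℕ, ∀ n ≥ n0, ∃ P K lam : ℕ,
  1 ≤ P ∧ 1 ≤ K ∧ Ach n P K lam ∧ (p.1 - ε) * n ≤ Real.logb 2 P ∧
  2 * Real.logb 2 K ≤ (p.2.1 + ε) * n ∧ |(lam : ℝ) - p.2.2 * n| ≤ ε * n}

/-- **NB** (30 lines).  All values of `g` on `[0,1]²` are `≤ 3 + x` (each power is in `[0,1]`), so the set is
bounded above; `g s x 0 0 ≥ 1` and `g s x 1 1 ≥ x` (`0 ^ s ≥ 0`, `1 ^ s = 1`). -/
def S_NB : Prop := ∀ s x : ℝ, 0 ≤ s → 0 < x → 1 ≤ N s x ∧ x ≤ N s x ∧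
  (∀ a b : ℝ, 0 ≤ a → a ≤ 1 → 0 ≤ b → b ≤ 1 → g s x a b ≤ N s x) ∧
  ∀ δ : ℝ, 0 < δ → ∃ a b : ℝ, 0 ≤ a ∧ a ≤ 1 ∧ 0 ≤ b ∧ b ≤ 1 ∧ N s x - δ < g s x a b

/-- **UP** (from NB; 80 lines).  Prove it for families of subsets of a finset `U` of any type (induction on
`U`, `Finset.induction_on`): for `insert a U` split `A = A₀ ∪ A₁` (sets without `a`, with `a`; `A₁` becomes a
family of subsets of `U` by erasing `a`, injectively), the same for `B`: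
`Z(A,B) = Z(A₀,B₀) + Z(A₀,B₁) + Z(A₁,B₀) + x Z(A₁,B₁) ≤ N^|U| ∑ x^(ij) (|A_i| |B_j|)^s`, and
`∑ x^(ij) |A_i|^s |B_j|^s = g s x (|A₁|/|A|) (|B₁|/|B|) (|A| |B|)^s ≤ N (|A| |B|)^s` if `A, B` are nonempty (if `A` or `B` is
empty both sides are `0` or the left side is `0`). -/
def S_UP : Prop := ∀ (n : ℕ) (A B : Finset (Finset (Fin n))) (s x : ℝ), 0 ≤ s → 0 < x →
  ∑ p ∈ A ×ˢ B, x ^ ((p.1 ∩ p.2).card) ≤ N s x ^ n * ((A.card : ℝ) * B.card) ^ s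

/-- **ID** (50 lines).  Induction on `n`, or for subsets of a finset `U` by `Finset.sum_powerset_insert`-type
splitting, or `Finset.prod_univ_sum` over functions into `Bool × Bool`. -/
def S_ID : Prop := ∀ (n : ℕ) (u u' w w' x : ℝ),
  ∑ A : Finset (Fin n), ∑ B : Finset (Fin n),
    x ^ ((A ∩ B).card) * (u ^ A.card * u' ^ (n - A.card)) * (w ^ B.card * w' ^ (n - B.card)) =
  (u' * w' + u' * w + u * w' + x * (u * w)) ^ n

/-- **PIG** (from ID; 80 lines).  ID with `u = a^s`, `u' = (1-a)^s`, `w = b^s`, `w' = (1-b)^s`: the sum is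
`g ^ n`; group the pairs by `(|A|, |B|, |A ∩ B|) ∈ {0..n}³`: some class `(i, j, lam)` has
`cnt * x^lam * (a^i (1-a)^(n-i))^s (b^j (1-b)^(n-j))^s * (n+1)^3 ≥ g^n` (`exists_le_of_sum_le` or
a maximal term), and `choose n i * a^i (1-a)^(n-i) ≤ 1` (`add_pow`, one term of the binomial theorem). -/
def S_PIG : Prop := ∀ (n : ℕ) (s x a b : ℝ), 0 ≤ s → 0 < x → 0 ≤ a → a ≤ 1 → 0 ≤ b → b ≤ 1 →
  ∃ i j lam : ℕ, i ≤ n ∧ j ≤ n ∧ lam ≤ n ∧
    g s x a b ^ n * ((n.choose i : ℝ) * n.choose j) ^ s ≤ ((n : ℝ) + 1) ^ 3 * x ^ lam *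
      (cnt lam (powersetCard i (univ : Finset (Fin n))) (powersetCard j univ) : ℝ)

/-- **MUL** (60 lines).  Families on `Fin m ⊕ Fin n`: `A.disjSum A'`, injective, `card_disjSum`,
`(A.disjSum A') ∩ (B.disjSum B') = (A ∩ B).disjSum (A' ∩ B')`; transport by `finSumFinEquiv`
(`Finset.map`).  The general form (families of different sizes) is wanted. -/
def S_MUL : Prop := ∀ (m n lam lam' : ℕ) (A B : Finset (Finset (Fin m)))
  (A' B' : Finset (Finset (Fin n))), ∃ A'' B'' : Finset (Finset (Fin (m + n))),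
    A''.card = A.card * A'.card ∧ B''.card = B.card * B'.card ∧
    cnt lam A B * cnt lam' A' B' ≤ cnt (lam + lam') A'' B''

/-- **PT** (from NB, PIG, MUL; 90 lines).  Choose `a, b` with `g > N 2^(-ε/2)` and `n ≥ 1` with
`3 log₂(n+1) ≤ ε n / 2`; PIG gives `i, j, lam` with `cnt ≥ 1` (the left side is positive).  MUL for
`(level i, level j)` and `(level j, level i)` (the counts are equal by symmetry) gives
`Ach (n+n) (P*P) (C(n,i) C(n,j)) (lam+lam)`; divide the logarithm of PIG by `n`. -/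
def S_PT : Prop := ∀ s x ε : ℝ, 0 ≤ s → 0 < x → 0 < ε → ∃ p ∈ D0,
  Real.logb 2 (N s x) - ε ≤ p.1 - s * p.2.1 + p.2.2 * Real.logb 2 x

/-- **PAD** (from MUL; 60 lines).  `Ach` calculus: products; `(n,P,K,lam) → (n+1,P,K,lam)` and
`(n+1,P,K,lam+1)` (add a point outside / inside all sets); powers; larger families. -/
def S_PAD : Prop :=
  (∀ n P K lam n' P' K' lam', Ach n P K lam → Ach n' P' K' lam' →
    Ach (n + n') (P * P') (K * K') (lam + lam')) ∧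
  (∀ n P K lam r t, t ≤ r → Ach n P K lam → Ach (n + r) P K (lam + t)) ∧
  (∀ n P K lam q, Ach n P K lam → Ach (q * n) (P ^ q) (K ^ q) (q * lam)) ∧
  ∀ n P K lam m, Ach n P K lam → K ≤ m → m ≤ 2 ^ n → Ach n P m lam

/-- **DUAL** (80 lines).  Pure convex analysis.  Let `δ = min (γ/8) (1/2)`,
`η = min (γ/8) (min (δ (F - v)/4) (v/2))`.  If for some `η'` there is no such point, then the open convex
set `O = {v-γ+η < p.1, p.2.1 < v-η, |p.2.2-l| < η'}` is disjoint from `convexHull D`;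
`geometric_hahn_banach_open` gives `f`, `u`: `f < u` on `O`, `u ≤ f` on `D`.  `f = -p̂ p.1 + q p.2.1 - r̂ p.2.2`;
`p̂ ≥ 0`, `q ≥ 0` as `f` is bounded above on `O`; letting the point of `O` tend to `(v-γ+η, v-η, l)`:
for all `d ∈ D`  `p̂ d.1 - q d.2.1 + r̂ d.2.2 ≤ p̂ (v-γ+η) - q (v-η) + r̂ l` (★).
Case `p̂ > 0`: `s = q/p̂`, `r = r̂/p̂`: `L s r ≤ (1-s) v - γ + (1+s) η + r l`.  If `s ≤ 1-δ` this contradicts
`(1-s) F ≤ L s r - l r + γ`.  If `1-δ < s` use `L s r ≥ max 0 r ≥ l r`: `0 ≤ (1-s) v - γ + (1+s) η`, false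
(`s < 1`: `≤ 2δ + 2η - γ < 0`; `s ≥ 1`: `= v+η-γ - s(v-η) ≤ 2η - γ < 0`).
Case `p̂ = 0`: (★) with `(0,0,0)`, `(0,0,1)` gives `r̂ ≤ 0`, then `q = 0`, `r̂ = 0`: `f = 0`, contradiction. -/
def S_DUAL : Prop := ∀ (D : Set (ℝ × ℝ × ℝ)) (L : ℝ → ℝ → ℝ) (l γ v F : ℝ),
  (0, 0, 0) ∈ D → (0, 0, 1) ∈ D →
  (∀ s r ε : ℝ, 0 ≤ s → 0 < ε → ∃ p ∈ D, L s r - ε ≤ p.1 - s * p.2.1 + r * p.2.2) →
  (∀ s r : ℝ, 0 ≤ s → 0 ≤ L s r ∧ r ≤ L s r) → 0 < l → l < 1 → 0 < γ → 0 < v → v ≤ 2 → v < F →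
  (∀ s r : ℝ, 0 ≤ s → s < 1 → (1 - s) * F ≤ L s r - l * r + γ) →
  ∃ η : ℝ, 0 < η ∧ ∀ η' : ℝ, 0 < η' → ∃ p ∈ convexHull ℝ D,
    v - γ + η < p.1 ∧ p.2.1 < v - η ∧ |p.2.2 - l| < η'

/-- **RD** (from PAD; 60 lines): `D0 ⊆ Rl`.  With `(n₁, P, K, lam)` given: `n = q n₁ + r`, `r < n₁`: powers and
padding (`t = 0`): `log (P^q) = q log P ≥ (n/n₁ - 1) log P`, etc. -/
def S_RD : Prop := D0 ⊆ Rl

/-- **RC** (from PAD; 80 lines): `Rl` is convex.  For weights `t, 1 - t` (both positive, else trivial) and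
`n` large take `n₁ = ⌊t n⌋₊`, `n₂ = n - n₁` (both large) and products: `|n₁ - t n| ≤ 1`. -/
def S_RC : Prop := Convex ℝ Rl

/-- **EX** (from PAD; 100 lines).  `p ∈ Rl` near `l` gives exact `lam n`.  Proof: fix
`ε ≤ 1/2` small with `ε (|p.1| + |p.2.1| + 4) ≤ η / 4`; apply the hypothesis with `η' = ε min(l,1-l)/8` and `Rl`
with `ε' = η'` at `n'' = n - ⌈ε n⌉₊`: `Ach n'' P K lam'` with `|lam' - l n''| ≤ 2 η' n''`; so
`t = lam n - lam'` satisfies `0 ≤ t ≤ n - n''` for large `n`; PAD gives `Ach n P K (lam n)`.  With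
`m = ⌈2^(v n/2)⌉₊`: `K ≤ m ≤ 2^n` as `2 log K ≤ (v - η/2) n`, `v < 2`, and `P ≥ 2^((v-γ+η/2) n) ≥ c m²` since
`m² ≤ 4 * 2^(v n)`, `c n ≤ 2^((-γ+η/8) n)` for large `n`.  (`p.1`, `p.2.1` may depend on `η'`, but
`p.1 ≤ 2`, `0 ≤ p.2.1`: choose `ε` from `v, γ, η` only; if useful use `v-γ+η < p.1` and
`p.2.1 < v-η` directly: `(1-2ε)(v-γ+η) - ε ≥ v-γ+η/2` in both signs of `v-γ+η`.) -/
def S_EX : Prop := ∀ (l γ v η : ℝ), 0 < l → l < 1 → 0 < γ → 0 < v → v < 2 → 0 < η →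
  (∀ η' : ℝ, 0 < η' → ∃ p ∈ Rl, v - γ + η < p.1 ∧ p.2.1 < v - η ∧ |p.2.2 - l| < η') →
  ∀ (lam : ℕ → ℕ) (c : ℕ → ℝ), (∀ n, 0 < c n) →
    Tendsto (fun n : ℕ => (lam n : ℝ) / n) atTop (𝓝 l) →
    Tendsto (fun n : ℕ => -Real.logb 2 (c n) / n) atTop (𝓝 γ) →
    ∀ᶠ n : ℕ in atTop, ∃ m : ℕ, Good n (lam n) (c n) m ∧ (2 : ℝ) ^ (v * n) ≤ (m : ℝ) ^ 2

/-- **UB** (from NB, UP; 60 lines).  If `Good n lam c m`, `m ≥ 1`, then `x^lam c m² ≤ N^n m^(2s)`, so for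
`s < 1`: `2 log m ≤ (n log N - lam log x - log c)/(1-s)` (all `log` to the base 2). -/
def S_UB : Prop := ∀ (n lam m : ℕ) (c s x : ℝ), 0 < c → 1 ≤ m → 0 ≤ s → s < 1 → 0 < x →
  Good n lam c m → 2 * Real.logb 2 m ≤
    (n * Real.logb 2 (N s x) - lam * Real.logb 2 x - Real.logb 2 c) / (1 - s)

/-- **MM** (40 lines).  The set of the `m ^ 2` is bounded (`m ≤ 2^n`), and contains `1` if `c ≤ 1`,
`lam ≤ n` (`A = B = {S}`, `|S| = lam`). So `M` is attained and is an upper bound. -/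
def S_MM : Prop := ∀ (n lam : ℕ) (c : ℝ), (∀ m, Good n lam c m → m ≤ 2 ^ n ∧ m ^ 2 ≤ M n lam c) ∧
  (c ≤ 1 → lam ≤ n → ∃ m, 1 ≤ m ∧ Good n lam c m ∧ M n lam c = m ^ 2)

/-- **LIM** (from NB, UB, MM, and the lower bound; helper96). -/
def S_LIM : Prop := ∀ (l γ : ℝ), 0 < l → l < 1 → 0 < γ → ∀ (lam : ℕ → ℕ) (c : ℕ → ℝ),
  (∀ n, 0 < c n) → Tendsto (fun n : ℕ => (lam n : ℝ) / n) atTop (𝓝 l) →
  Tendsto (fun n : ℕ => -Real.logb 2 (c n) / n) atTop (𝓝 γ) →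
  Tendsto (fun n : ℕ => Real.logb 2 (M n (lam n) (c n)) / n) atTop (𝓝 (min 2 (Phi l γ)))

/-- **NOF** (60 lines).  No function of `n` and `c` works: with `c n = 1 / (n + 1)`,
`M n n (1/(n+1)) ≤ n + 1` (only the pair of full sets has `|A ∩ B| = n`) and for some `lam` with
`1 ≤ lam ≤ n` (`n` large) `M n lam (1/(n+1)) = 4^n`: all pairs of sets, pigeonhole over the `n + 1` values of
`|A ∩ B|`; the value `0` is not the most frequent one: there are `3^n` disjoint pairs and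
`n 3^(n-1)` with `|A ∩ B| = 1`. -/
def S_NOF : Prop := ¬ ∃ f : ℕ → ℝ → ℝ, ∀ ε : ℝ, 0 < ε → ∃ n0 : ℕ, ∀ n ≥ n0, ∀ lam : ℕ, 1 ≤ lam →
  lam ≤ n → ∀ c : ℝ, (2 : ℝ) ^ (-(n : ℝ)) ≤ c → c ≤ 1 →
    |Real.logb 2 (M n lam c) - f n c| ≤ ε * n

end

end Run7.h96.IX
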