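import Pool.Agent.Run7.h96.IX.Stm

/-!
# Project IX (helper96), second interface: the end points `l = 0`, `l = 1`
-/

set_option autoImplicit false

open Finset Filter Topology

namespace Run7.h96.IX

noncomputable section

/-- normalised achievable points with `lam = 0` -/
def D00 : Set (ℝ × ℝ) := {p | ∃ n P K : ℕ, 1 ≤ n ∧ 1 ≤ P ∧ 1 ≤ K ∧ Ach n P K 0 ∧
  p = (Real.logb 2 P / n, 2 * Real.logb 2 K / n)}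

/-- asymptotically realisable points with `lam = 0` -/
def Rl0 : Set (ℝ × ℝ) := {p | ∀ ε : ℝ, 0 < ε → ∃ n0 : ℕ, ∀ n ≥ n0, ∃ P K : ℕ,
  1 ≤ P ∧ 1 ≤ K ∧ Ach n P K 0 ∧ (p.1 - ε) * n ≤ Real.logb 2 P ∧
  2 * Real.logb 2 K ≤ (p.2 + ε) * n}

/-- **NB2** (40 lines), as NB: `g s x a b = g s 0 a b + x a^s b^s ≤ g s 0 a b + x ≤ 3 + x`. -/
def S_NB2 : Prop := ∀ s : ℝ, 0 ≤ s → 1 ≤ N s 0 ∧
  (∀ δ : ℝ, 0 < δ → ∃ a b : ℝ, 0 ≤ a ∧ a ≤ 1 ∧ 0 ≤ b ∧ b ≤ 1 ∧ N s 0 - δ < g s 0 a b) ∧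
  ∀ x : ℝ, 0 < x → N s x ≤ N s 0 + x ∧ N s x ≤ 3 + x

/-- **PIG0** (from ID; 80 lines), as PIG with `x = 0` (`0 ^ |A ∩ B|` is `1` for disjoint pairs and
`0` otherwise), classes by `(|A|, |B|)`. -/
def S_PIG0 : Prop := ∀ (n : ℕ) (s a b : ℝ), 0 ≤ s → 0 ≤ a → a ≤ 1 → 0 ≤ b → b ≤ 1 →
  ∃ i j : ℕ, i ≤ n ∧ j ≤ n ∧
    g s 0 a b ^ n * ((n.choose i : ℝ) * n.choose j) ^ s ≤ ((n : ℝ) + 1) ^ 2 *
      (cnt 0 (powersetCard i (univ : Finset (Fin n))) (powersetCard j univ) : ℝ)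

/-- **PT0** (from NB2, PIG0, MUL; 90 lines), as PT with `lam = 0`. -/
def S_PT0 : Prop := ∀ s ε : ℝ, 0 ≤ s → 0 < ε → ∃ p ∈ D00, Real.logb 2 (N s 0) - ε ≤ p.1 - s * p.2

/-- **DUAL0** (from DUAL; 40 lines).  Apply DUAL to `D' = {(h, k, z) | (h, k) ∈ D, z ∈ {0, 1}}`,
`L' s r = L s + max 0 r`, `l = 1/2`, and project the point of `convexHull D'` to the first two
coordinates (`convexHull_min` with the preimage of `convexHull D`). -/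
def S_DUAL0 : Prop := ∀ (D : Set (ℝ × ℝ)) (L : ℝ → ℝ) (γ v F : ℝ), (0, 0) ∈ D →
  (∀ s ε : ℝ, 0 ≤ s → 0 < ε → ∃ p ∈ D, L s - ε ≤ p.1 - s * p.2) →
  (∀ s : ℝ, 0 ≤ s → 0 ≤ L s) → 0 < γ → 0 < v → v ≤ 2 → v < F →
  (∀ s : ℝ, 0 ≤ s → s < 1 → (1 - s) * F ≤ L s + γ) →
  ∃ η : ℝ, 0 < η ∧ ∃ p ∈ convexHull ℝ D, v - γ + η < p.1 ∧ p.2 < v - η

/-- **RD0** (from PAD; 60 lines), as RD. -/
def S_RD0 : Prop := D00 ⊆ Rl0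

/-- **RC0** (from PAD; 80 lines), as RC. -/
def S_RC0 : Prop := Convex ℝ Rl0

/-- **EX0** (from PAD; 80 lines), as EX but simpler: `Rl0` at `n'' = n - lam n` (`lam n = o(n)`), then PAD
with `r = t = lam n` gives `Ach n P K (lam n)`; `m = ⌈2^(v n/2)⌉₊`. -/
def S_EX0 : Prop := ∀ (γ v η : ℝ), 0 < γ → 0 < v → v < 2 → 0 < η →
  (∃ p ∈ Rl0, v - γ + η < p.1 ∧ p.2 < v - η) →
  ∀ (lam : ℕ → ℕ) (c : ℕ → ℝ), (∀ n, 0 < c n) →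
    Tendsto (fun n : ℕ => (lam n : ℝ) / n) atTop (𝓝 0) →
    Tendsto (fun n : ℕ => -Real.logb 2 (c n) / n) atTop (𝓝 γ) →
    ∀ᶠ n : ℕ in atTop, ∃ m : ℕ, Good n (lam n) (c n) m ∧ (2 : ℝ) ^ (v * n) ≤ (m : ℝ) ^ 2

/-- **ONE** (60 lines).  `m = ⌈2^(v n/2)⌉₊ ≤ 2^n`: any families of `m` sets which both contain a fixed
set `S` with `|S| = lam n`: `cnt ≥ 1 ≥ c m²` for large `n`, as `m² ≤ 4 * 2^(v n)`, `v < γ`. -/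
def S_ONE : Prop := ∀ (γ v : ℝ), 0 < v → v < 2 → v < γ → ∀ (lam : ℕ → ℕ) (c : ℕ → ℝ),
  (∀ n, 0 < c n) → (∀ n, lam n ≤ n) → Tendsto (fun n : ℕ => -Real.logb 2 (c n) / n) atTop (𝓝 γ) →
    ∀ᶠ n : ℕ in atTop, ∃ m : ℕ, Good n (lam n) (c n) m ∧ (2 : ℝ) ^ (v * n) ≤ (m : ℝ) ^ 2

/-- **PHI** (from NB, NB2; 60 lines).  The set in `Phi` is bounded below by `0` for `0 ≤ l ≤ 1`
(`log N ≥ max 0 (log x) ≥ l log x`).  `Phi 1 γ ≤ log (3 + x) - log x + γ → γ` (`s = 0`, `x → ∞`);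
`(1-s) Phi 0 γ ≤ log (N s x) + γ ≤ log (N s 0 + x) + γ`, `x → 0`. -/
def S_PHI : Prop := ∀ γ : ℝ, 0 < γ → Phi 1 γ ≤ γ ∧
  ∀ s : ℝ, 0 ≤ s → s < 1 → (1 - s) * Phi 0 γ ≤ Real.logb 2 (N s 0) + γ

end

end Run7.h96.IX
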