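import Pool.Agent.Run7.h96.IX.Stm2

/-!
# Project IX (helper96), third interface: super-polynomially small `c` (`γ = 0`)
-/

set_option autoImplicit false

open Finset Filter Topology

namespace Run7.h96.IX

noncomputable section

/-- nearly independent pairs of levels, `K` the exponent of the loss -/
def NI (n K i j lam : ℕ) : Prop := i ≤ n ∧ j ≤ n ∧ lam ≤ n ∧
  n.choose i * n.choose j ≤ (n + 1) ^ K *
    cnt lam (powersetCard i (univ : Finset (Fin n))) (powersetCard j univ)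

/-- their points -/
def E1 (n K : ℕ) : Set (ℝ × ℝ) := {p | ∃ i j lam : ℕ, NI n K i j lam ∧
  p = (Real.logb 2 ((n.choose i : ℝ) * n.choose j) / n, (lam : ℝ) / n)}

/-- **T1** (from NB, PIG; 100 lines).  `κ = 4/ε`, `t = κ log₂(n+1)/n ∈ (0,1)` for large `n`, `s = 1 - t`,
`x = 2^(t θ)`; `a, b` with `g ≥ N 2^(-t ε/4)` (NB with `δ = N (1 - 2^(-tε/4))`); PIG gives `i, j, lam` with
`g^n (CC)^s ≤ (n+1)³ x^lam cnt`, `CC = C(n,i) C(n,j) ≤ 4^n`.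
(a) `g^n ≥ 2^(-t n ε/4) = (n+1)^(-1)`, `(CC)^(-t) ≥ 2^(-2nt) = (n+1)^(-2κ)`, `x^lam ≤ (n+1)^(κΘ)`: so
`NI` with `K = ⌈4 + 2κ + κΘ⌉`.  (b) `cnt ≤ CC`: `t log CC + t θ lam + 3 log(n+1) ≥ n (log N - tε/4)`;
divide by `t n`: `(log CC + θ lam)/n ≥ log N / t - ε`; and `Phi l 0 ≤ (log N - l t θ)/t` (`csInf_le`; the set is
bounded below by `0` because `log N ≥ max 0 (log x) ≥ l log x`). -/
def S_T1 : Prop := ∀ l Θ ε : ℝ, 0 < l → l < 1 → 0 < Θ → 0 < ε → ∃ K n0 : ℕ, ∀ n ≥ n0,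
  ∀ θ : ℝ, |θ| ≤ Θ → ∃ p ∈ E1 n K, Phi l 0 + θ * l - ε ≤ p.1 + θ * p.2

/-- **T2** (50 lines).  If there is no such point, separate (`geometric_hahn_banach_open`) the open convex set
`{v < p.1, |p.2 - l| < δ}` from `convexHull E`: `f = -q p.1 - r p.2`, `q ≥ 0`, and letting the point tend to
`(v, l)`: `q e.1 + r e.2 ≤ q v + r l` on `E`.  `q > 0`: `θ = r/q`; `(0,0)`, `(0,1)` give
`-v/l ≤ θ ≤ v/(1-l)`, so `|θ| ≤ Θ`, contradiction.  `q = 0`: `(0,0)`, `(0,1)` give `r = 0`, `f = 0`. -/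
def S_T2 : Prop := ∀ (E : Set (ℝ × ℝ)) (l v Θ : ℝ), (0, 0) ∈ E → (0, 1) ∈ E → 0 < l → l < 1 →
  0 < v → v / l ≤ Θ → v / (1 - l) ≤ Θ →
  (∀ θ : ℝ, |θ| ≤ Θ → ∃ p ∈ E, v + θ * l < p.1 + θ * p.2) →
  ∀ δ : ℝ, 0 < δ → ∃ p ∈ convexHull ℝ E, v < p.1 ∧ |p.2 - l| < δ

/-- **T3** (80 lines).  Caratheodory (`convexHull_eq_union`, at most 3 points, or
`mem_convexHull_iff_exists_fintype`-type forms): `p = ∑ w_j e_j`; take `⌊w_j T⌋₊` copies of `e_j` and fill with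
`(0,0)`; the errors are at most `3 * 2/T`, `3 * 1/T`. -/
def S_T3 : Prop := ∀ (E : Set (ℝ × ℝ)), (0, 0) ∈ E → (∀ e ∈ E, 0 ≤ e.1 ∧ e.1 ≤ 2 ∧ 0 ≤ e.2 ∧ e.2 ≤ 1) →
  ∀ p ∈ convexHull ℝ E, ∀ T : ℕ, 1 ≤ T → ∃ e : Fin T → ℝ × ℝ, (∀ j, e j ∈ E) ∧
    |(∑ j, (e j).1) / T - p.1| ≤ 6 / T ∧ |(∑ j, (e j).2) / T - p.2| ≤ 6 / T

/-- **T4** (from MUL; 60 lines).  Induction on `T`: for one class use MUL for `(level i, level j)` and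
`(level j, level i)` (equal counts). -/
def S_T4 : Prop := ∀ (n K T : ℕ) (i j lam : Fin T → ℕ), (∀ t, NI n K (i t) (j t) (lam t)) →
  ∃ P : ℕ, Ach (T * (2 * n)) P (∏ t, n.choose (i t) * n.choose (j t)) (∑ t, 2 * lam t) ∧
    (∏ t, n.choose (i t) * n.choose (j t)) ^ 2 ≤ P * (n + 1) ^ (2 * K * T)

/-- **T5** (from PAD; 120 lines).  `T = T(l, v, v')` large (`100 / T ≤ (v' - v) min(l, 1-l) / 8`),
`n' = ⌊(1 - ε) n / (2T)⌋₊`, `ε = (v' - v)/8`: the hypothesis at `n'` gives `Ach (T (2 n')) P Kk lam'` with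
`Kk² ≤ P (n+1)^(K')`, `2 log Kk ≥ v' (2 T n')`, `|lam' - l (2 T n')| ≤ small n`; PAD adds points to get
exactly `n` and `lam n`; if `Kk > m = ⌈2^(v n/2)⌉₊` take sub-families?  NOT needed: use `m = Kk` itself,
`Kk² ≥ 2^(v n)` and `c Kk² ≤ n^(-K'') Kk² ≤ P` for large `n`. -/
def S_T5 : Prop := ∀ (l v v' : ℝ), 0 < l → l < 1 → 0 < v → v < v' →
  (∀ δ : ℝ, 0 < δ → ∃ T K : ℕ, 1 ≤ T ∧ ∃ n0 : ℕ, ∀ n ≥ n0, ∃ P Kk lam : ℕ, 1 ≤ P ∧ 1 ≤ Kk ∧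
    Ach (T * (2 * n)) P Kk lam ∧ Kk ^ 2 ≤ P * (n + 1) ^ K ∧
    v' * (T * (2 * n) : ℕ) ≤ 2 * Real.logb 2 Kk ∧
    |(lam : ℝ) - l * (T * (2 * n) : ℕ)| ≤ δ * (T * (2 * n) : ℕ)) →
  ∀ (lam : ℕ → ℕ) (c : ℕ → ℝ), (∀ n, 0 < c n) →
    Tendsto (fun n : ℕ => (lam n : ℝ) / n) atTop (𝓝 l) →
    Tendsto (fun n : ℕ => -Real.logb 2 (c n) / Real.logb 2 n) atTop atTop →
    ∀ᶠ n : ℕ in atTop, ∃ m : ℕ, Good n (lam n) (c n) m ∧ (2 : ℝ) ^ (v * n) ≤ (m : ℝ) ^ 2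

end

end Run7.h96.IX
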