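import Pool.Agent.Run7.h96.IX.Stm

/-! # Piece `UNIF` of the project `IX` (`MP_bc4c60_co`): the uniform version of `LIM` -/

set_option autoImplicit false

open Finset Filter Topology

namespace Run7.h96.IX

/-- uniform version -/
def S_UNIF : Prop := ∀ a b A B : ℝ, 0 < a → b < 1 → 0 < A → ∀ ε : ℝ, 0 < ε →
  ∃ n0 : ℕ, ∀ n ≥ n0, ∀ lam : ℕ, a * n ≤ lam → (lam : ℝ) ≤ b * n → ∀ c : ℝ,
    (2 : ℝ) ^ (-(B * n)) ≤ c → c ≤ (2 : ℝ) ^ (-(A * n)) →
    |Real.logb 2 (M n lam c) - n * min 2 (Phi ((lam : ℝ) / n) (-Real.logb 2 c / n))| ≤ ε * n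

theorem tendsto_floor (l : ℝ) (hl : 0 < l) :
    Tendsto (fun n : ℕ => (⌊l * n⌋₊ : ℝ) / n) atTop (𝓝 l) :=
  (tendsto_nat_floor_mul_div_atTop hl.le).comp tendsto_natCast_atTop_atTop

theorem logb_c (γ : ℝ) (n : ℕ) (hn : 1 ≤ n) : -Real.logb 2 ((2 : ℝ) ^ (-(γ * n))) / n = γ := by
  have hn' : (0 : ℝ) < n := by exact_mod_cast hn
  rw [Real.logb_rpow (by norm_num) (by norm_num)]
  field_simp

theorem local_unif (hLIM : S_LIM) (l γ : ℝ) (hl : 0 < l) (hl1 : l < 1) (hγ : 0 < γ) (ε : ℝ)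
    (hε : 0 < ε) : ∃ δ : ℝ, 0 < δ ∧ ∃ n0 : ℕ, ∀ n ≥ n0, ∀ (lam : ℕ) (c : ℝ), 0 < c →
      |(lam : ℝ) / n - l| < δ → |-Real.logb 2 c / n - γ| < δ →
      |Real.logb 2 (M n lam c) / n - min 2 (Phi l γ)| < ε := by
  classical
  by_contra hcon
  push Not at hcon
  have hfr : ∀ k : ℕ, ∃ᶠ n : ℕ in atTop, ∃ (lam : ℕ) (c : ℝ), 0 < c ∧
      |(lam : ℝ) / n - l| < 1 / ((k : ℝ) + 1) ∧ |-Real.logb 2 c / n - γ| < 1 / ((k : ℝ) + 1) ∧
      ε ≤ |Real.logb 2 (M n lam c) / n - min 2 (Phi l γ)| := by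
    intro k
    rw [frequently_atTop]
    intro n0
    obtain ⟨n, hn, lam, c, h1, h2, h3, h4⟩ := hcon (1 / ((k : ℝ) + 1)) (by positivity) n0
    exact ⟨n, hn, lam, c, h1, h2, h3, h4⟩
  obtain ⟨φ, hφ, h⟩ := extraction_forall_of_frequently hfr
  choose lamk ck hck hlk hgk hbad using h
  -- the glued sequences
  set lam : ℕ → ℕ := fun n => if h : ∃ k, φ k = n then lamk h.choose else ⌊l * n⌋₊ with hlam
  set c : ℕ → ℝ := fun n => if h : ∃ k, φ k = n then ck h.choose else (2 : ℝ) ^ (-(γ * n)) with hc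
  have hlamφ : ∀ k, lam (φ k) = lamk k := by
    intro k
    have hex : ∃ k', φ k' = φ k := ⟨k, rfl⟩
    simp only [hlam, dif_pos hex]
    rw [hφ.injective hex.choose_spec]
  have hcφ : ∀ k, c (φ k) = ck k := by
    intro k
    have hex : ∃ k', φ k' = φ k := ⟨k, rfl⟩
    simp only [hc, dif_pos hex]
    rw [hφ.injective hex.choose_spec]
  have hcpos : ∀ n, 0 < c n := by
    intro n
    by_cases hex : ∃ k, φ k = n
    · obtain ⟨k, rfl⟩ := hex
      rw [hcφ]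
      exact hck k
    · simp only [hc, dif_neg hex]
      positivity
  have t1 : Tendsto (fun n : ℕ => (lam n : ℝ) / n) atTop (𝓝 l) := by
    rw [Metric.tendsto_atTop]
    intro δ hδ
    obtain ⟨K, hK⟩ := exists_nat_one_div_lt hδ
    obtain ⟨N1, hN1⟩ := (Metric.tendsto_atTop.mp (tendsto_floor l hl)) δ hδ
    refine ⟨max (φ K) N1, fun n hn => ?_⟩
    by_cases hex : ∃ k, φ k = n
    · obtain ⟨k, rfl⟩ := hex
      rw [hlamφ, Real.dist_eq]
      have hk : K ≤ k := hφ.le_iff_le.mp ((le_max_left _ _).trans hn)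
      refine (hlk k).trans (lt_of_le_of_lt ?_ hK)
      apply one_div_le_one_div_of_le (by positivity)
      have : (K : ℝ) ≤ k := by exact_mod_cast hk
      linarith
    · have : lam n = ⌊l * n⌋₊ := by simp only [hlam, dif_neg hex]
      rw [this]
      exact hN1 n ((le_max_right _ _).trans hn)
  have t2 : Tendsto (fun n : ℕ => -Real.logb 2 (c n) / n) atTop (𝓝 γ) := by
    rw [Metric.tendsto_atTop]
    intro δ hδ
    obtain ⟨K, hK⟩ := exists_nat_one_div_lt hδ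
    refine ⟨max (φ K) 1, fun n hn => ?_⟩
    by_cases hex : ∃ k, φ k = n
    · obtain ⟨k, rfl⟩ := hex
      rw [hcφ, Real.dist_eq]
      have hk : K ≤ k := hφ.le_iff_le.mp ((le_max_left _ _).trans hn)
      refine (hgk k).trans (lt_of_le_of_lt ?_ hK)
      apply one_div_le_one_div_of_le (by positivity)
      have : (K : ℝ) ≤ k := by exact_mod_cast hk
      linarith
    · have : c n = (2 : ℝ) ^ (-(γ * n)) := by simp only [hc, dif_neg hex]
      rw [this, logb_c γ n ((le_max_right _ _).trans hn), dist_self]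
      exact hδ
  have ht := hLIM l γ hl hl1 hγ lam c hcpos t1 t2
  obtain ⟨N2, hN2⟩ := (Metric.tendsto_atTop.mp ht) ε hε
  have h1 := hN2 (φ N2) hφ.le_apply
  rw [Real.dist_eq, hlamφ, hcφ] at h1
  exact absurd h1 (not_lt.mpr (hbad N2))

theorem t_UNIF (hLIM : S_LIM) : S_UNIF := by
  classical
  intro a b A B ha hb hA ε hε
  -- local data
  have hloc : ∀ p : ℝ × ℝ, p ∈ Set.Icc a b ×ˢ Set.Icc A B → ∃ δ : ℝ, 0 < δ ∧ ∃ n0 : ℕ,
      ∀ n ≥ n0, ∀ (lam : ℕ) (c : ℝ), 0 < c →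
      |(lam : ℝ) / n - p.1| < δ → |-Real.logb 2 c / n - p.2| < δ →
      |Real.logb 2 (M n lam c) / n - min 2 (Phi p.1 p.2)| < ε / 2 := by
    intro p hp
    obtain ⟨⟨h1, h2⟩, ⟨h3, h4⟩⟩ := hp
    exact local_unif hLIM p.1 p.2 (by linarith) (by linarith) (by linarith) _ (by linarith)
  choose! δ hδ n0 hn0 using hloc
  -- continuity of the limit
  have hcont : ∀ p ∈ Set.Icc a b ×ˢ Set.Icc A B, ∀ q ∈ Set.Icc a b ×ˢ Set.Icc A B,
      |q.1 - p.1| < δ p → |q.2 - p.2| < δ p →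
      |min 2 (Phi q.1 q.2) - min 2 (Phi p.1 p.2)| ≤ ε / 2 := by
    intro p hp q hq h1 h2
    obtain ⟨⟨q1, q2⟩, ⟨q3, q4⟩⟩ := hq
    have hq1 : 0 < q.1 := by linarith
    have t1 := tendsto_floor q.1 hq1
    have t2 : Tendsto (fun n : ℕ => -Real.logb 2 ((2 : ℝ) ^ (-(q.2 * n))) / n) atTop (𝓝 q.2) := by
      refine tendsto_const_nhds.congr' ?_
      filter_upwards [eventually_ge_atTop 1] with n hn
      exact (logb_c q.2 n hn).symm
    have ht := hLIM q.1 q.2 hq1 (by linarith) (by linarith) (fun n => ⌊q.1 * n⌋₊)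
      (fun n => (2 : ℝ) ^ (-(q.2 * n))) (fun n => by positivity) t1 t2
    refine le_of_tendsto ((ht.sub_const (min 2 (Phi p.1 p.2))).abs) ?_
    have e1 : ∀ᶠ n : ℕ in atTop, |(⌊q.1 * n⌋₊ : ℝ) / n - p.1| < δ p :=
      ((t1.sub_const p.1).abs).eventually (gt_mem_nhds h1)
    filter_upwards [e1, eventually_ge_atTop (n0 p), eventually_ge_atTop 1] with n hn1 hn2 hn3
    refine (hn0 p hp n hn2 _ _ (by positivity) hn1 ?_).le
    rw [logb_c q.2 n hn3]
    exact h2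
  -- compactness
  have hK : IsCompact (Set.Icc a b ×ˢ Set.Icc A B) := isCompact_Icc.prod isCompact_Icc
  obtain ⟨t, ht, hcov⟩ := hK.elim_nhds_subcover
    (fun p => if p ∈ Set.Icc a b ×ˢ Set.Icc A B then Metric.ball p (δ p) else Set.univ)
    (fun p hp => by
      rw [if_pos hp]
      exact Metric.ball_mem_nhds p (hδ p hp))
  refine ⟨(∑ p ∈ t, n0 p) + 1, fun n hn lam h1 h2 c h3 h4 => ?_⟩
  have hn1 : 1 ≤ n := by omega
  have hn' : (0 : ℝ) < n := by exact_mod_cast hn1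
  have hc : 0 < c := lt_of_lt_of_le (by positivity) h3
  set q : ℝ × ℝ := ((lam : ℝ) / n, -Real.logb 2 c / n) with hq
  have hqK : q ∈ Set.Icc a b ×ˢ Set.Icc A B := by
    refine ⟨⟨?_, ?_⟩, ⟨?_, ?_⟩⟩
    · simp only [hq]
      rw [le_div_iff₀ hn']
      exact h1
    · simp only [hq]
      rw [div_le_iff₀ hn']
      exact h2
    · simp only [hq]
      rw [le_div_iff₀ hn']
      have := Real.logb_le_logb_of_le (b := 2) (by norm_num) hc h4
      rw [Real.logb_rpow (by norm_num) (by norm_num)] at this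
      linarith
    · simp only [hq]
      rw [div_le_iff₀ hn']
      have := Real.logb_le_logb_of_le (b := 2) (by norm_num) (by positivity) h3
      rw [Real.logb_rpow (by norm_num) (by norm_num)] at this
      linarith
  obtain ⟨p, hpt, hqp⟩ := Set.mem_iUnion₂.mp (hcov hqK)
  have hpK := ht p hpt
  rw [if_pos hpK, Metric.mem_ball, Prod.dist_eq, max_lt_iff, Real.dist_eq, Real.dist_eq] at hqp
  have hnp : n0 p ≤ n := by
    have : n0 p ≤ ∑ p ∈ t, n0 p := Finset.single_le_sum (f := n0) (fun _ _ => Nat.zero_le _) hpt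
    omega
  have g1 := hn0 p hpK n hnp lam c hc hqp.1 hqp.2
  have g2 := hcont p hpK q hqK hqp.1 hqp.2
  have g3 : |Real.logb 2 (M n lam c) / n - min 2 (Phi q.1 q.2)| ≤ ε := by
    have := abs_sub_le (Real.logb 2 (M n lam c) / n) (min 2 (Phi p.1 p.2)) (min 2 (Phi q.1 q.2))
    rw [abs_sub_comm (min 2 (Phi p.1 p.2)) (min 2 (Phi q.1 q.2))] at this
    linarith
  have g4 : Real.logb 2 (M n lam c) - n * min 2 (Phi ((lam : ℝ) / n) (-Real.logb 2 c / n)) =
      (Real.logb 2 (M n lam c) / n - min 2 (Phi q.1 q.2)) * n := by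
    simp only [hq]
    field_simp
  rw [g4, abs_mul, abs_of_pos hn']
  exact mul_le_mul_of_nonneg_right g3 hn'.le

end Run7.h96.IX
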